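import Pool.Agent.Q225.Sim.Easy

set_option autoImplicit false
set_option linter.unusedSectionVars false

/-!
# The combination of four tensors, general form
-/

namespace Pool.Agent.Q225.Eqv

open Matrix Pool.Agent.Q225.Add Pool.Agent.Q225.Dich Pool.Agent.W956.KF Pool.Agent.H53R3
  Polynomial Pool.Agent.Q225.Ver Pool.Agent.Q225.Sim

/-- the twelve conditions on six indices -/
def Sep {ι : Type} (i j j' k k' i' : ι) : Prop :=
  (i ≠ j ∧ i ≠ j' ∧ i ≠ k ∧ i ≠ k') ∧ (i' ≠ j ∧ i' ≠ j' ∧ i' ≠ k ∧ i' ≠ k') ∧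
    (j ≠ k ∧ j ≠ k' ∧ j' ≠ k ∧ j' ≠ k')

section main

variable {F : Type} [Field F] [Infinite F] {n : ℕ} {σ : Type} [DecidableEq σ]

/-- **The combination of four tensors.** -/
theorem four {c : σ → F} {x : Fin n → F} {L : F[X] →ₗ[F] F} {s : F} (hs : s ≠ 0)
    (H : Fin n → Fin n → Fin n → Fin n → Fin n → Fin n → Rt F σ)
    {ρ ρ' ρ'' : Fin n → F} (h1 : ∀ i, ρ i ≠ 0) (h2 : ∀ i, ρ' i ≠ 0) (h3 : ∀ i, ρ'' i ≠ 0)
    (hval : ∀ i j j' k k' i' : Fin n, Sep i j j' k k' i' → Vl c (H i j j' k k' i')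
        (if j = j' ∧ k = k' ∧ i = i' then s * (ρ i * ρ' j * ρ'' k) * mu L x {i, j, k} else 0))
    {m : ℕ} (hm : 1 ≤ m) (a : Fin 5 → Fin m → Fin n)
    (ha : ∀ p q i j, a p i = a q j → p = q ∧ i = j)
    (hw : ∀ i j, wt L x (a 0 i) (a 1 i) (a 2 j) (a 3 j) ≠ 0) {r : ℕ}
    (hr : ∀ p q : Fin 5, p ≠ q → p ≠ 4 → q ≠ 4 →
      TensorRankLE (fun (i j l : Fin m × Fin m) =>
        H (a p i.1) (a q i.2) (a q j.1) (a 4 j.2) (a 4 l.2) (a p l.1)) r) :
    (m : ℝ) ^ Pool.Agent.H826R3.SM.omegaMM F ≤ 4 * r := by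
  classical
  have hne : ∀ p q i j, p ≠ q → a p i ≠ a q j := fun p q i j h h' => h (ha p q i j h').1
  have hinj : ∀ p i j, a p i = a p j ↔ i = j :=
    fun p i j => ⟨fun h => (ha p p i j h).2, fun h => by rw [h]⟩
  let E : F →+* Rt F σ := algebraMap F (Rt F σ)
  -- the scaled tensor
  let T : Fin 5 → Fin 5 → F → Fin m × Fin m → Fin m × Fin m → Fin m × Fin m → Rt F σ :=
    fun p q ε i j l =>
      E (ε * (wt L x (a 0 i.1) (a 1 i.1) (a 2 i.2) (a 3 i.2))⁻¹ *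
        (x (a p i.1) - x (a q i.2)) * (ρ (a p i.1) * ρ' (a q i.2))⁻¹) *
        E ((x (a q j.1) - x (a 4 j.2)) * (ρ'' (a 4 j.2))⁻¹) *
        E (x (a p l.1) - x (a 4 l.2)) *
        H (a p i.1) (a q i.2) (a q j.1) (a 4 j.2) (a 4 l.2) (a p l.1)
  have hT : ∀ p q ε, p ≠ q → p ≠ 4 → q ≠ 4 → TensorRankLE (T p q ε) r :=
    fun p q ε h1 h2 h3 => tensor_scale (hr p q h1 h2 h3) _ _ _
  have hTv : ∀ p q ε, p ≠ q → p ≠ 4 → q ≠ 4 → ∀ i j l, Vl c (T p q ε i j l)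
      (if i.2 = j.1 ∧ l.1 = i.1 ∧ l.2 = j.2 then
        ε * s * (wt L x (a 0 i.1) (a 1 i.1) (a 2 i.2) (a 3 i.2))⁻¹ *
        (mu L x {a p i.1} * (x (a q i.2) - x (a 4 j.2)) +
          mu L x {a q i.2} * (x (a 4 j.2) - x (a p i.1)) +
          mu L x {a 4 j.2} * (x (a p i.1) - x (a q i.2))) else 0) := by
    intro p q ε g1 g2 g3 i j l
    have h := hval (a p i.1) (a q i.2) (a q j.1) (a 4 j.2) (a 4 l.2) (a p l.1)
      ⟨⟨hne _ _ _ _ g1, hne _ _ _ _ g1, hne _ _ _ _ g2, hne _ _ _ _ g2⟩,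
      ⟨hne _ _ _ _ g1, hne _ _ _ _ g1, hne _ _ _ _ g2, hne _ _ _ _ g2⟩,
      hne _ _ _ _ g3, hne _ _ _ _ g3, hne _ _ _ _ g3, hne _ _ _ _ g3⟩
    have h' := (((vl_const c (ε * (wt L x (a 0 i.1) (a 1 i.1) (a 2 i.2) (a 3 i.2))⁻¹ *
        (x (a p i.1) - x (a q i.2)) * (ρ (a p i.1) * ρ' (a q i.2))⁻¹)).mul
        (vl_const c ((x (a q j.1) - x (a 4 j.2)) * (ρ'' (a 4 j.2))⁻¹))).mul
        (vl_const c (x (a p l.1) - x (a 4 l.2)))).mul h
    convert h' using 1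
    simp only [hinj]
    by_cases hmt : i.2 = j.1 ∧ l.1 = i.1 ∧ l.2 = j.2
    · obtain ⟨e1, e2, e3⟩ := hmt
      rw [if_pos ⟨e1, e2, e3⟩, if_pos ⟨e1, e3.symm, e2.symm⟩, e2, e3, ← e1]
      have := mu_scaled L x (hne p q i.1 i.2 g1) (hne p 4 i.1 j.2 g2) (hne q 4 i.2 j.2 g3)
      rw [← this]
      have a1 := h1 (a p i.1)
      have a2 := h2 (a q i.2)
      have a3 := h3 (a 4 j.2)
      have a4 := hw i.1 i.2
      field_simp
    · rw [if_neg hmt, if_neg, mul_zero]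
      rintro ⟨e1, e2, e3⟩
      exact hmt ⟨e1, e3.symm, e2.symm⟩
  have hsum := tensor_add (tensor_add (hT 0 2 1 (by decide) (by decide) (by decide))
    (hT 1 2 (-1) (by decide) (by decide) (by decide)))
    (tensor_add (hT 0 3 (-1) (by decide) (by decide) (by decide))
      (hT 1 3 1 (by decide) (by decide) (by decide)))
  obtain ⟨A, B, C, hABC⟩ := hsum
  have := omega_of_border (F := F) (σ := σ) hm c A B C hs fun i j l => ?_
  · refine this.trans (le_of_eq ?_)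
    push_cast
    ring
  · rw [← hABC]
    have h := ((hTv 0 2 1 (by decide) (by decide) (by decide) i j l).add
      (hTv 1 2 (-1) (by decide) (by decide) (by decide) i j l)).add
      ((hTv 0 3 (-1) (by decide) (by decide) (by decide) i j l).add
      (hTv 1 3 1 (by decide) (by decide) (by decide) i j l))
    convert h using 1
    by_cases hmt : i.2 = j.1 ∧ l.1 = i.1 ∧ l.2 = j.2
    · simp only [if_pos hmt]
      have hw' := hw i.1 i.2
      field_simp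
      rw [wt]
      ring
    · simp only [if_neg hmt, mul_zero, add_zero]

end main

end Pool.Agent.Q225.Eqv
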