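import Pool.Agent.Q225.Eqv.Up

set_option autoImplicit false
set_option linter.unusedSectionVars false

/-!
# The exponents of equivariant maps
-/

namespace Pool.Agent.Q225.Eqv

open Matrix Pool.Agent.Q225.Add Pool.Agent.Q225.Dich Pool.Agent.W956.KF Pool.Agent.H53R3
  Pool.Agent.Q225.Sim

/-- The matrix `∑ k, a k X ^ k`, where `X = gm F v`. -/
noncomputable def comb {F σ : Type} [Field F] {n : ℕ} (v : Fin n → Fin n → σ)
    (a : Fin n → Rt F σ) : Matrix (Fin n) (Fin n) (Rt F σ) :=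
  ∑ k : Fin n, a k • gm F v ^ (k : ℕ)

/-- The entries of a matrix. -/
def entries {F σ : Type} [Field F] {n : ℕ} (G : Matrix (Fin n) (Fin n) (Rt F σ)) :
    Set (Rt F σ) :=
  Set.range fun t : Fin n × Fin n => G t.1 t.2

section

variable {F σ : Type} [Field F] [Infinite F] {n : ℕ} {v : Fin n → Fin n → σ}

/-- the powers are linearly independent -/
theorem comb_injective (hP : Pat v) {a : Fin n → Rt F σ} (h : comb v a = 0) : a = 0 := by
  have h1 : kr (gm F v) *ᵥ a = 0 := by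
    have h2 := congrArg (fun M => M *ᵥ (1 : Fin n → Rt F σ)) h
    simp only [comb, Matrix.sum_mulVec, Matrix.zero_mulVec] at h2
    rw [← h2]
    funext i
    rw [Matrix.mulVec, dotProduct, Finset.sum_apply]
    refine Finset.sum_congr rfl fun k _ => ?_
    rw [Matrix.smul_mulVec, Pi.smul_apply, smul_eq_mul, mul_comm]
    rfl
  have hdet := det_kr_ne_zero (F := F) hP
  have h3 := congrArg (fun w => (kr (gm F v))⁻¹ *ᵥ w) h1
  simp only [Matrix.mulVec_mulVec, Matrix.mulVec_zero] at h3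
  rwa [Matrix.nonsing_inv_mul _ (isUnit_iff_ne_zero.2 hdet), Matrix.one_mulVec] at h3

omit [Infinite F] in
theorem coef_mem {r : ℕ} (hr : r ≤ n) : (gm F v).charpoly.coeff r ∈ Invs F v := by
  rcases hr.lt_or_eq with h | rfl
  · exact IntermediateField.subset_adjoin _ _ ⟨⟨r, h⟩, rfl⟩
  · rw [coeff_top]
    exact (Invs F v).one_mem

omit [Infinite F] in
/-- change of the basis -/
theorem pow_mem_span {k : ℕ} (hk : k < n) : gm F v ^ k ∈
    Submodule.span (Invs F v) (Set.range fun r : Fin n => bs (gm F v) (r : ℕ)) := by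
  induction k using Nat.strong_induction_on with
  | _ k ih =>
    have h1 : n - (n - 1 - k) = k + 1 := by omega
    have h2 : bs (gm F v) (n - 1 - k) = (∑ m ∈ Finset.range k,
        (gm F v).charpoly.coeff (n - 1 - k + m + 1) • gm F v ^ m) + gm F v ^ k := by
      rw [bs, h1, Finset.sum_range_succ]
      congr 1
      rw [show n - 1 - k + k + 1 = n by omega, coeff_top, one_smul]
    rw [← sub_eq_iff_eq_add'] at h2
    rw [← h2]
    refine Submodule.sub_mem _ (Submodule.subset_span ⟨⟨n - 1 - k, by omega⟩, rfl⟩)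
      (Submodule.sum_mem _ fun m hm => ?_)
    have hm' := Finset.mem_range.1 hm
    have h3 := Submodule.smul_mem (Submodule.span (Invs F v)
      (Set.range fun r : Fin n => bs (gm F v) (r : ℕ)))
      (⟨(gm F v).charpoly.coeff (n - 1 - k + m + 1), coef_mem (by omega)⟩ : Invs F v)
      (ih m hm' (by omega))
    exact h3

omit [Infinite F] in
theorem comb_mem_span {a : Fin n → Rt F σ} (ha : ∀ k, a k ∈ Invs F v) : comb v a ∈
    Submodule.span (Invs F v) (Set.range fun r : Fin n => bs (gm F v) (r : ℕ)) := by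
  refine Submodule.sum_mem _ fun k _ => ?_
  exact Submodule.smul_mem _ (⟨a k, ha k⟩ : Invs F v) (pow_mem_span k.2)

omit [Infinite F] in
theorem rep_inv {f : Rt F σ} (hf : f ∈ Invs F v) : ∃ P Q : MvPolynomial (Fin n) F,
    MvPolynomial.aeval (fun r : Fin n => kap F v (r : ℕ)) Q ≠ 0 ∧ f = inva v P Q := by
  obtain ⟨P₀, Q₀, hPQ⟩ := (IntermediateField.mem_adjoin_range_iff F _ _).1 hf
  by_cases h : MvPolynomial.aeval (fun r : Fin n => kap F v (r : ℕ)) Q₀ = 0
  · refine ⟨0, 1, by rw [map_one]; exact one_ne_zero, ?_⟩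
    rw [hPQ, h, div_zero, inva, map_zero, zero_div]
  · exact ⟨P₀, Q₀, h, hPQ⟩

theorem exists_eqm (hP : Pat v) {a : Fin n → Rt F σ} (ha : ∀ k, a k ∈ Invs F v)
    {k₀ : Fin n} (hk₀ : 2 ≤ (k₀ : ℕ)) (ha₀ : a k₀ ≠ 0) :
    ∃ (P : Fin n → MvPolynomial (Fin n) F) (Q : MvPolynomial (Fin n) F), Q ≠ 0 ∧
      comb v a = eqm v P Q ∧ ∃ r : Fin n, (r : ℕ) + 3 ≤ n ∧ P r ≠ 0 := by
  classical
  obtain ⟨b, hb⟩ := (Submodule.mem_span_range_iff_exists_fun _).1 (comb_mem_span ha)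
  choose P' Q' hQ' hPQ using fun r => rep_inv (b r).2
  set κ : Fin n → Rt F σ := fun r => kap F v (r : ℕ) with hκ
  set Q := ∏ r, Q' r with hQ
  set P : Fin n → MvPolynomial (Fin n) F := fun r => P' r * ∏ t ∈ Finset.univ.erase r, Q' t
    with hPdef
  have hQκ : MvPolynomial.aeval κ Q ≠ 0 := by
    rw [hQ, map_prod]
    exact Finset.prod_ne_zero_iff.2 fun r _ => hQ' r
  have hQ0 : Q ≠ 0 := by
    intro h
    rw [h, map_zero] at hQκ
    exact hQκ rfl
  have hbr : ∀ r, (b r : Rt F σ) = inva v (P r) Q := by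
    intro r
    rw [hPQ r, inva, inva]
    have e : Q = Q' r * ∏ t ∈ Finset.univ.erase r, Q' t :=
      (Finset.mul_prod_erase Finset.univ Q' (Finset.mem_univ r)).symm
    have h1 : MvPolynomial.aeval κ (∏ t ∈ Finset.univ.erase r, Q' t) ≠ 0 := by
      rw [map_prod]
      exact Finset.prod_ne_zero_iff.2 fun t _ => hQ' t
    rw [e, hPdef, map_mul, map_mul, mul_div_mul_right _ _ h1]
  have hG : comb v a = eqm v P Q := by
    rw [← hb, eqm]
    refine Finset.sum_congr rfl fun r _ => ?_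
    rw [← hbr]
    rfl
  refine ⟨P, Q, hQ0, hG, ?_⟩
  by_contra hcon
  push Not at hcon
  have hn : 3 ≤ n := by
    have := k₀.2
    omega
  let r1 : Fin n := ⟨n - 1, by omega⟩
  let r2 : Fin n := ⟨n - 2, by omega⟩
  have h12 : r1 ≠ r2 := by
    intro h
    have := congrArg Fin.val h
    simp only [r1, r2] at this
    omega
  have hz : ∀ r : Fin n, r ≠ r1 → r ≠ r2 → inva v (P r) Q = 0 := by
    intro r h1 h2
    have h3 : (r : ℕ) + 3 ≤ n := by
      have h4 : (r : ℕ) ≠ n - 1 := fun h => h1 (Fin.ext h)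
      have h5 : (r : ℕ) ≠ n - 2 := fun h => h2 (Fin.ext h)
      have := r.2
      omega
    rw [inva, hcon r h3, map_zero, zero_div]
  have hsum : eqm v P Q = inva v (P r1) Q • bs (gm F v) (r1 : ℕ) +
      inva v (P r2) Q • bs (gm F v) (r2 : ℕ) := by
    rw [eqm, ← Finset.sum_subset (Finset.subset_univ {r1, r2}), Finset.sum_pair h12]
    intro r _ hr
    simp only [Finset.mem_insert, Finset.mem_singleton, not_or] at hr
    rw [hz r hr.1 hr.2, zero_smul]
  have e1 : bs (gm F v) (r1 : ℕ) = 1 := bs_last _ (by simp only [r1]; omega)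
  have e2 : bs (gm F v) (r2 : ℕ) = gm F v + kap F v (n - 1) • 1 := by
    rw [bs_rec _ r2.2]
    have h3 : (r2 : ℕ) + 1 = n - 1 := by simp only [r2]; omega
    rw [h3, bs_last _ (by omega), Matrix.mul_one]
    rfl
  let k0 : Fin n := ⟨0, by omega⟩
  let k1 : Fin n := ⟨1, by omega⟩
  have h01 : k0 ≠ k1 := by
    intro h
    have := congrArg Fin.val h
    simp only [k0, k1] at this
    omega
  set α := inva v (P r1) Q + inva v (P r2) Q * kap F v (n - 1) with hα
  set β := inva v (P r2) Q with hβ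
  have hzero : comb v (fun k => a k - (if k = k0 then α else if k = k1 then β else 0)) = 0 := by
    have h4 : comb v (fun k => a k - (if k = k0 then α else if k = k1 then β else 0)) =
        comb v a - ∑ k : Fin n, (if k = k0 then α else if k = k1 then β else 0) •
          gm F v ^ (k : ℕ) := by
      rw [comb, comb, ← Finset.sum_sub_distrib]
      exact Finset.sum_congr rfl fun k _ => sub_smul _ _ _
    rw [h4, hG, hsum, e1, e2, ← Finset.sum_subset (Finset.subset_univ {k0, k1}),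
      Finset.sum_pair h01, if_pos rfl, if_neg h01.symm, if_pos rfl]
    · simp only [k0, k1, pow_zero, pow_one, hα, hβ, smul_add, add_smul, smul_smul]
      abel
    · intro k _ hk
      simp only [Finset.mem_insert, Finset.mem_singleton, not_or] at hk
      rw [if_neg hk.1, if_neg hk.2, zero_smul]
  have h5 := congrFun (comb_injective hP hzero) k₀
  have h6 : k₀ ≠ k0 := by
    intro h
    have := congrArg Fin.val h
    simp only [k0] at this
    omega
  have h7 : k₀ ≠ k1 := by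
    intro h
    have := congrArg Fin.val h
    simp only [k1] at this
    omega
  simp only [if_neg h6, if_neg h7, sub_zero, Pi.zero_apply] at h5
  exact ha₀ h5

variable [DecidableEq σ] [Fintype σ]

/-- lower bounds if some coefficient of `X ^ k`, `k ≥ 2`, is not zero -/
theorem lower_all (hn : 5 ≤ n) {θ : F} (hK : Kd v θ) {a : Fin n → Rt F σ}
    (ha : ∀ k, a k ∈ Invs F v) (ha₀ : ∃ k : Fin n, 2 ≤ (k : ℕ) ∧ a k ≠ 0) (s : ℕ) :
    (CompM F σ (entries (comb v a)) s → ((n / 5 : ℕ) : ℝ) ^ omega F ≤ 8 * s) ∧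
    (CompU F σ (entries (comb v a)) s → ((n / 5 : ℕ) : ℝ) ^ omega F ≤ 4 * s) ∧
    (CompP F σ (entries (comb v a)) s →
      ((n / 5 : ℕ) : ℝ) ^ omega F ≤ 12 * s + 4 * ((n / 5 : ℕ) : ℝ) ^ 2) := by
  obtain ⟨k₀, hk₀, h0⟩ := ha₀
  obtain ⟨P, Q, hQ, hG, hR⟩ := exists_eqm hK.pat ha hk₀ h0
  rw [omega_eq, hG]
  exact ⟨lower_M hn hK hQ hR, lower_U hn hK hQ hR, lower_P hn hK hQ hR⟩

end

section total

variable {F σ : Type} [Field F] {n : ℕ} {v : Fin n → Fin n → σ}

theorem ReachLe.inv' {L : Type} [Field L] {T : Set L} {x : L} (hx : x ∈ T) :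
    ∃ T', ReachLe T 1 T' ∧ x⁻¹ ∈ T' :=
  ⟨_, ⟨1, le_rfl, ReachD.refl.inv hx⟩, Set.mem_insert _ _⟩

theorem ReachLe.mul' {L : Type} [Field L] {T : Set L} {x y : L} (hx : x ∈ T) (hy : y ∈ T) :
    ∃ T', ReachLe T 1 T' ∧ x * y ∈ T' :=
  ⟨_, ⟨1, le_rfl, ReachD.refl.mul hx hy⟩, Set.mem_insert _ _⟩

theorem ReachLe.add' {L : Type} [Field L] {T : Set L} {x y : L} (hx : x ∈ T) (hy : y ∈ T) :
    ∃ T', ReachLe T 1 T' ∧ x + y ∈ T' :=
  ⟨_, ⟨1, le_rfl, ReachD.refl.add hx hy⟩, Set.mem_insert _ _⟩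

theorem gz_ne (w : σ) : gz F σ w ≠ 0 := by
  intro h
  have h1 : algebraMap (MvPolynomial σ F) (Rt F σ) (MvPolynomial.X w) = 0 := h
  rw [map_eq_zero_iff _ (IsFractionRing.injective (MvPolynomial σ F) (Rt F σ))] at h1
  exact MvPolynomial.X_ne_zero w h1

/-- the coefficients of an affine map can be computed from its entries -/
theorem coeffs_of_affine (hn : 2 ≤ n) {α β : Rt F σ} {s : ℕ}
    (h : CompT F σ (entries (α • (1 : Matrix (Fin n) (Fin n) (Rt F σ)) + β • gm F v)) s) :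
    CompT F σ {α, β} (s + 5) := by
  obtain ⟨T0, r0, h0⟩ := h
  let i0 : Fin n := ⟨0, by omega⟩
  let i1 : Fin n := ⟨1, by omega⟩
  have h01 : i0 ≠ i1 := by
    intro h
    have := congrArg Fin.val h
    simp only [i0, i1] at this
    omega
  have hx : ∀ i j, gm F v i j ∈ T0 := fun i j => r0.subset (Or.inr ⟨_, rfl⟩)
  have hm : (-1 : Rt F σ) ∈ T0 := r0.subset (Or.inl ⟨-1, by simp⟩)
  have e1 : β * gm F v i0 i1 ∈ T0 := by
    have := h0 ⟨(i0, i1), rfl⟩
    simpa [h01] using this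
  have e2 : α + β * gm F v i0 i0 ∈ T0 := by
    have := h0 ⟨(i0, i0), rfl⟩
    simpa using this
  have hne : gm F v i0 i1 ≠ 0 := gz_ne _
  obtain ⟨T1, r1, h1⟩ := ReachLe.inv' (hx i0 i1)
  have s1 := r1.subset
  obtain ⟨T2, r2, h2⟩ := ReachLe.mul' (s1 e1) h1
  rw [mul_inv_cancel_right₀ hne] at h2
  have s2 := r2.subset
  obtain ⟨T3, r3, h3⟩ := ReachLe.mul' h2 (s2 (s1 (hx i0 i0)))
  have s3 := r3.subset
  obtain ⟨T4, r4, h4⟩ := ReachLe.mul' (s3 (s2 (s1 hm))) h3
  have s4 := r4.subset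
  obtain ⟨T5, r5, h5⟩ := ReachLe.add' (s4 (s3 (s2 (s1 e2)))) h4
  have e3 : α + β * gm F v i0 i0 + -1 * (β * gm F v i0 i0) = α := by ring
  rw [e3] at h5
  refine ⟨T5, ((((((r0.trans r1).trans r2).trans r3).trans r4).trans r5)).mono (by omega), ?_⟩
  rintro z (rfl | rfl)
  · exact h5
  · exact r5.subset (s4 (s3 h2))

theorem comb_affine (hn : 2 ≤ n) {a : Fin n → Rt F σ} (ha : ∀ k : Fin n, 2 ≤ (k : ℕ) → a k = 0) :
    comb v a = a ⟨0, by omega⟩ • (1 : Matrix (Fin n) (Fin n) (Rt F σ)) +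
      a ⟨1, by omega⟩ • gm F v := by
  let k0 : Fin n := ⟨0, by omega⟩
  let k1 : Fin n := ⟨1, by omega⟩
  have h01 : k0 ≠ k1 := by
    intro h
    have := congrArg Fin.val h
    simp only [k0, k1] at this
    omega
  rw [comb, ← Finset.sum_subset (Finset.subset_univ {k0, k1}), Finset.sum_pair h01]
  · simp only [k0, k1, pow_zero, pow_one]
  · intro k _ hk
    simp only [Finset.mem_insert, Finset.mem_singleton, not_or] at hk
    rw [ha k, zero_smul]
    by_contra hlt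
    have h2 : (k : ℕ) = 0 ∨ (k : ℕ) = 1 := by omega
    rcases h2 with h2 | h2
    · exact hk.1 (Fin.ext h2)
    · exact hk.2 (Fin.ext h2)

/-- the maps which are cheap -/
def Easy (v : Fin n → Fin n → σ) (a : Fin n → Rt F σ) : Prop :=
  (∀ k : Fin n, (k : ℕ) < 2 → a k ∈ Two F v) ∧ ∀ k : Fin n, 2 ≤ (k : ℕ) → a k = 0

variable [CharZero F] [DecidableEq σ] [Fintype σ]

/-- affine maps with cheap coefficients are cheap -/
theorem affine_upper {α β : Rt F σ} {s : ℕ}
    (h : CompFrom F {(gm F v).trace, (gm F v * gm F v).trace} {α, β} s) :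
    CompT F σ (entries (α • (1 : Matrix (Fin n) (Fin n) (Rt F σ)) + β • gm F v))
      (3 * n ^ 2 + 2 * n + s) := by
  obtain ⟨T1, r1, h1, h2⟩ := reach_two (F := F) v
  obtain ⟨T', h3, h4⟩ := h
  have hsub : Set.range (algebraMap F (Rt F σ)) ∪
      {(gm F v).trace, (gm F v * gm F v).trace} ⊆ T1 := by
    rintro _ (⟨c, rfl⟩ | rfl | rfl)
    · exact r1.subset (Or.inl ⟨c, rfl⟩)
    · exact h1
    · exact h2
  obtain ⟨T2, r2, h5⟩ := reachLe_mono h3 hsub
  have s1 := r1.subset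
  have s2 := r2.subset
  have hα : α ∈ T2 := h5 (h4 (Or.inl rfl))
  have hβ : β ∈ T2 := h5 (h4 (Or.inr rfl))
  obtain ⟨T3, r3, h6⟩ := reachLe_of_cost (Cost.range (T := T2) (ι := Fin n × Fin n)
    (x := fun t => β * gm F v t.1 t.2) (s := 1)
    fun t => Cost.mul hβ (s2 (s1 (Or.inr ⟨_, rfl⟩))))
  have s3 := r3.subset
  obtain ⟨T4, r4, h7⟩ := reachLe_of_cost (Cost.range (T := T3) (ι := Fin n)
    (x := fun i => α + β * gm F v i i) (s := 1)
    fun i => Cost.add (s3 hα) (h6 ⟨(i, i), rfl⟩))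
  refine ⟨T4, (((r1.trans r2).trans r3).trans r4).mono ?_, ?_⟩
  · rw [Fintype.card_prod, Fintype.card_fin]
    have : n * n * 1 = n ^ 2 := by ring
    omega
  · rintro _ ⟨⟨i, j⟩, rfl⟩
    by_cases hij : i = j
    · subst hij
      simpa using h7 ⟨i, rfl⟩
    · have := r4.subset (h6 ⟨(i, j), rfl⟩)
      simpa [hij] using this

/-- the total number of operations -/
theorem lower_T (hn : 5 ≤ n) {θ : F} (hK : Kd v θ) {a : Fin n → Rt F σ}
    (ha : ∀ k, a k ∈ Invs F v) (h : ¬ Easy v a) {s : ℕ}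
    (hs : CompT F σ (entries (comb v a)) s) :
    ((n / 5 : ℕ) : ℝ) ^ omega F ≤ 24 * (s + 5) := by
  by_cases h2 : ∃ k : Fin n, 2 ≤ (k : ℕ) ∧ a k ≠ 0
  · obtain ⟨s', hs', h3⟩ := hs.compM
    have h4 := (lower_all hn hK ha h2 s').1 h3
    have h5 : (s' : ℝ) ≤ s := by exact_mod_cast hs'
    have h6 : (0 : ℝ) ≤ s := Nat.cast_nonneg s
    linarith
  · push Not at h2
    have h3 : ∃ k : Fin n, (k : ℕ) < 2 ∧ a k ∉ Two F v := by
      by_contra hcon
      push Not at hcon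
      exact h ⟨hcon, h2⟩
    obtain ⟨k, hk, hk'⟩ := h3
    rw [comb_affine (by omega) h2] at hs
    have h4 := coeffs_of_affine (by omega) hs
    have h5 : CompT F σ {a k} (s + 5) := by
      obtain ⟨T', r, h6⟩ := h4
      refine ⟨T', r, ?_⟩
      rintro _ rfl
      have h7 : (k : ℕ) = 0 ∨ (k : ℕ) = 1 := by omega
      rcases h7 with h7 | h7
      · have : k = ⟨0, by omega⟩ := Fin.ext h7
        rw [this]
        exact h6 (Or.inl rfl)
      · have : k = ⟨1, by omega⟩ := Fin.ext h7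
        rw [this]
        exact h6 (Or.inr rfl)
    obtain ⟨s', hs', h6⟩ := h5.compM
    have h7 := (Sim.lower_all hn hK (ha k) hk' s').1 h6
    rw [← omega_eq] at h7
    have h8 : (s' : ℝ) ≤ s + 5 := by exact_mod_cast hs'
    linarith

/-- the total cost of maps whose coefficients are easily computed -/
theorem upper_all {σ : ℕ → Type} {v : ∀ n, Fin n → Fin n → σ n} (hP : ∀ n, Pat (v n))
    {a : ∀ n, Fin n → Rt F (σ n)}
    (ha : ∀ τ : ℝ, omega F < τ → ∃ D : ℝ, ∀ n : ℕ, 1 ≤ n → ∃ s : ℕ, (s : ℝ) ≤ D * (n : ℝ) ^ τ ∧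
      CompFrom F (coefs F (v n)) (Set.range (a n)) s) {τ : ℝ} (hτ : omega F < τ) :
    ∃ D : ℝ, ∀ n : ℕ, 1 ≤ n → ∃ s : ℕ, (s : ℝ) ≤ D * (n : ℝ) ^ τ ∧
      CompT F (σ n) (entries (comb (v n) (a n))) s := by
  obtain ⟨D₁, -, hD₁⟩ := eqCost_upper (F := F) (τ := τ) (by rwa [omega_eq] at hτ)
  obtain ⟨D₂, hD₂⟩ := ha τ hτ
  refine ⟨D₁ + D₂, fun n hn => ?_⟩
  obtain ⟨s, hs, hc⟩ := hD₂ n hn
  refine ⟨eqCost F n + s, ?_, reach_eqv (hP n) hc⟩
  push_cast
  have := hD₁ n hn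
  linarith

theorem omega_pos (F : Type) [Field F] [Infinite F] : 0 < omega F := by
  rw [omega_eq]
  exact lt_of_lt_of_le two_pos (two_le_omegaMM F)

/-- **Exponents, total number of operations.** -/
theorem exponent_T {σ : ℕ → Type} [∀ n, Fintype (σ n)] [∀ n, DecidableEq (σ n)]
    {v : ∀ n, Fin n → Fin n → σ n} {θ : F} (hK : ∀ n, Kd (v n) θ)
    {a : ∀ n, Fin n → Rt F (σ n)} (h1 : ∀ n, 5 ≤ n → (∀ k, a n k ∈ Invs F (v n)) ∧
      ¬ Easy (v n) (a n))
    (ha : ∀ τ : ℝ, omega F < τ → ∃ D : ℝ, ∀ n : ℕ, 1 ≤ n → ∃ s : ℕ, (s : ℝ) ≤ D * (n : ℝ) ^ τ ∧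
      CompFrom F (coefs F (v n)) (Set.range (a n)) s) :
    Exponent (fun n s => CompT F (σ n) (entries (comb (v n) (a n))) s) = omega F := by
  refine exponent_eq (a := 24) (b := 120) (omega_pos F) (by norm_num) (by norm_num)
    (fun n hn s hs => ?_) fun τ hτ => upper_all (fun n => (hK n).pat) ha hτ
  have := lower_T hn (hK n) (h1 n hn).1 (h1 n hn).2 hs
  linarith

/-- **Exponents, multiplications and additions.** -/
theorem exponent_MU {σ : ℕ → Type} [∀ n, Fintype (σ n)] [∀ n, DecidableEq (σ n)]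
    {v : ∀ n, Fin n → Fin n → σ n} {θ : F} (hK : ∀ n, Kd (v n) θ)
    {a : ∀ n, Fin n → Rt F (σ n)} (h1 : ∀ n, 5 ≤ n → (∀ k, a n k ∈ Invs F (v n)) ∧
      ∃ k : Fin n, 2 ≤ (k : ℕ) ∧ a n k ≠ 0)
    (ha : ∀ τ : ℝ, omega F < τ → ∃ D : ℝ, ∀ n : ℕ, 1 ≤ n → ∃ s : ℕ, (s : ℝ) ≤ D * (n : ℝ) ^ τ ∧
      CompFrom F (coefs F (v n)) (Set.range (a n)) s) :
    Exponent (fun n s => CompM F (σ n) (entries (comb (v n) (a n))) s) = omega F ∧
    Exponent (fun n s => CompU F (σ n) (entries (comb (v n) (a n))) s) = omega F := by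
  have hup := fun τ hτ => upper_all (fun n => (hK n).pat) ha (τ := τ) hτ
  refine ⟨?_, ?_⟩
  · refine exponent_eq (a := 8) (b := 0) (omega_pos F) (by norm_num) le_rfl (fun n hn s hs => ?_)
      fun τ hτ => ?_
    · have := (lower_all hn (hK n) (h1 n hn).1 (h1 n hn).2 s).1 hs
      linarith
    · obtain ⟨D, hD⟩ := hup τ hτ
      refine ⟨D, fun n hn => ?_⟩
      obtain ⟨s, hs, h2⟩ := hD n hn
      obtain ⟨s', hs', h3⟩ := h2.compM
      exact ⟨s', le_trans (by exact_mod_cast hs') hs, h3⟩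
  · refine exponent_eq (a := 4) (b := 0) (omega_pos F) (by norm_num) le_rfl (fun n hn s hs => ?_)
      fun τ hτ => ?_
    · have := (lower_all hn (hK n) (h1 n hn).1 (h1 n hn).2 s).2.1 hs
      linarith
    · obtain ⟨D, hD⟩ := hup τ hτ
      refine ⟨3 * D, fun n hn => ?_⟩
      obtain ⟨s, hs, h2⟩ := hD n hn
      obtain ⟨s', hs', h3⟩ := h2.compU two_ne_zero
      refine ⟨s', ?_, h3⟩
      have : (s' : ℝ) ≤ 3 * s := by exact_mod_cast hs'
      linarith

end total

end Pool.Agent.Q225.Eqv
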