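import Pool.Agent.Q225.Eqv.Val

set_option autoImplicit false
set_option linter.unusedSectionVars false

/-!
# Lower bounds for equivariant maps
-/

namespace Pool.Agent.Q225.Eqv

open Matrix Pool.Agent.Q225.Add Pool.Agent.Q225.Dich Pool.Agent.W956.KF Pool.Agent.H53R3
  Polynomial Pool.Agent.Q225.Ver Pool.Agent.Q225.Sim

section tensor

variable {F : Type} [Field F] {V : Type} [DecidableEq V] [Fintype V] {D : V → Rt F V → Rt F V}
  (hD : ∀ x, IsDer (D x)) (hc : ∀ x (c : F), D x (algebraMap F _ c) = 0)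
  (hv : ∀ x j, D x (gz F V j) = if j = x then 1 else 0) {m : ℕ}
  {α β : Fin m × Fin m → V} (hαβ : ∀ i j, α i ≠ β j) {Z : Set (Rt F V)}
  {z : Fin m × Fin m → Rt F V} (hz : ∀ l, z l ∈ Z)

include hD hc hv hαβ hz

theorem out_M {s : ℕ} (h : CompM F V Z s) :
    TensorRankLE (fun i j l => D (α i) (D (β j) (z l))) (2 * s) := by
  obtain ⟨P, Q, hP⟩ := two_compM hD hc hv h
  choose C hC using fun l => hP (z l) (hz l)
  refine tensorRankLE_of_fintype (T := Fin s × Fin 2) (fun t i => P t (α i))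
    (fun t j => Q t (β j)) (fun t l => C l t) (fun i j l => ?_) (by
      rw [Fintype.card_prod, Fintype.card_fin, Fintype.card_fin, mul_comm])
  rw [hC l _ _ (hαβ i j)]
  exact Finset.sum_congr rfl fun t _ => by ring

theorem out_U {s : ℕ} (h : CompU F V Z s) :
    TensorRankLE (fun i j l => D (α i) (D (β j) (z l))) s := by
  obtain ⟨P, hP⟩ := two_compU hD hc hv h
  choose C hC using fun l => hP (z l) (hz l)
  refine tensorRankLE_of_fintype (T := Fin s) (fun t i => P t (α i))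
    (fun t j => P t (β j)) (fun t l => C l t) (fun i j l => ?_) (Fintype.card_fin s)
  rw [hC l _ _ (hαβ i j)]
  exact Finset.sum_congr rfl fun t _ => by ring

theorem out_P {s : ℕ} (h : CompP F V Z s) :
    TensorRankLE (fun i j l => D (α i) (D (β j) (z l))) (3 * s + m ^ 2) := by
  obtain ⟨P, hP⟩ := two_compP hD hc hv h
  choose C hC using fun l => hP (z l) (hz l)
  refine tensorRankLE_of_fintype (T := (Fin s × Fin 3) ⊕ (Fin m × Fin m))
    (fun t i => match t with
      | .inl t => P t (α i)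
      | .inr l => D (α i) (z l))
    (fun t j => match t with
      | .inl t => P t (β j)
      | .inr l => D (β j) (z l))
    (fun t l => match t with
      | .inl t => z l * C l t
      | .inr l' => if l' = l then (z l)⁻¹ else 0) (fun i j l => ?_) (by
      rw [Fintype.card_sum, Fintype.card_prod, Fintype.card_prod, Fintype.card_fin,
        Fintype.card_fin, Fintype.card_fin]
      ring)
  rw [Fintype.sum_sum_type]
  simp only [mul_ite, mul_zero, Finset.sum_ite_eq', Finset.mem_univ, if_true]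
  have h1 := hh_eq (dA := fun i => D (α i)) (dB := fun j => D (β j))
    (fun i => hD _) (fun j => hD _) (z l)
  have h2 := congrFun h1 (i, j)
  simp only [hh, Add.ll, gg, Pi.add_apply, Pi.smul_apply, smul_eq_mul] at h2
  rw [h2]
  congr 1
  · rw [hC l _ _ (hαβ i j), Finset.mul_sum]
    exact Finset.sum_congr rfl fun t _ => by ring
  · ring

end tensor

section value

variable {F σ : Type} [Field F] [Infinite F] [DecidableEq σ] {n : ℕ} {v : Fin n → Fin n → σ}

/-- the equivariant map with the coordinates `P r / Q` in the basis `bs` -/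
noncomputable def eqm (v : Fin n → Fin n → σ) (P : Fin n → MvPolynomial (Fin n) F)
    (Q : MvPolynomial (Fin n) F) : Matrix (Fin n) (Fin n) (Rt F σ) :=
  ∑ r : Fin n, inva v (P r) Q • bs (gm F v) (r : ℕ)

theorem value_eqm {D : σ → Rt F σ → Rt F σ} (hD : ∀ x, IsDer (D x))
    (hc : ∀ x (c : F), D x (algebraMap F _ c) = 0)
    (hv : ∀ x j, D x (gz F σ j) = if j = x then 1 else 0)
    {θ : F} (hK : Kd v θ) {c : σ → F} {x : Fin n → F}
    (hcx : ∀ i j, c (v i j) = if i = j then x i else 0)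
    (P : Fin n → MvPolynomial (Fin n) F) {Q : MvPolynomial (Fin n) F}
    (hQ : MvPolynomial.eval (kx x) Q ≠ 0)
    (i j j' k k' i' : Fin n) (hs : Sep i j j' k k' i') :
    Vl c (D (v i j) (D (v j' k) (eqm v P Q i' k')))
      (if j = j' ∧ k = k' ∧ i = i' then
        (MvPolynomial.eval (kx x) Q)⁻¹ * (1 * 1 * 1) * mu (LR P x) x {i, j, k} else 0) := by
  classical
  obtain ⟨⟨h1, h2, h3, h4⟩, ⟨h5, h6, h7, h8⟩, h9, h10, h11, h12⟩ := id hs
  have hk : ∀ r : Fin n, Jt c D (v i j) (v j' k) (v k' i') (kap F v r) (kx x r)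
      (if j = j' ∧ k = k' ∧ i = i' then -((1 + θ) * (qp x {i, j, k}).coeff r) else 0) := by
    intro r
    rw [kx_eq]
    exact jt_kap hD hc hv h1 h2 h3 h4 h5 h6 h7 h8 h9 h10 h11 h12 hK hcx r.2.le
  have hQ' := jt_aeval hD hc hk Q
  simp only [MvPolynomial.aeval_eq_eval] at hQ'
  have hr : ∀ r : Fin n, Jo c D (v i j) (v j' k) (inva v (P r) Q * bs (gm F v) (r : ℕ) i' k')
      (MvPolynomial.eval (kx x) (P r) / MvPolynomial.eval (kx x) Q *
        if j = j' ∧ k = k' ∧ i = i' then (qp x {i, j, k}).coeff (r : ℕ) else 0) := by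
    intro r
    have hP' := jt_aeval hD hc hk (P r)
    simp only [MvPolynomial.aeval_eq_eval] at hP'
    exact Jo.mul hD (hP'.div hD hc hQ' hQ) (jo_bs hD hc hv hs hK.pat hcx hK r.2)
  have hsum := (jo_sum hD Finset.univ fun r _ => hr r).zab
  have e : eqm v P Q i' k' = ∑ r : Fin n, inva v (P r) Q * bs (gm F v) (r : ℕ) i' k' := by
    rw [eqm, Matrix.sum_apply]
    exact Finset.sum_congr rfl fun r _ => by rw [Matrix.smul_apply, smul_eq_mul]
  rw [e]
  convert hsum using 1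
  by_cases hm : j = j' ∧ k = k' ∧ i = i'
  · simp only [if_pos hm]
    rw [mu, LR_apply, Finset.mul_sum]
    exact Finset.sum_congr rfl fun r _ => by
      field_simp
  · simp only [if_neg hm, mul_zero, Finset.sum_const_zero]

end value

section lower

variable {F σ : Type} [Field F] [Infinite F] [DecidableEq σ] [Fintype σ] {n : ℕ}
  {v : Fin n → Fin n → σ}

/-- **The lower bound.** -/
theorem lower_core (hn : 5 ≤ n) {θ : F} (hK : Kd v θ)
    {P : Fin n → MvPolynomial (Fin n) F} {Q : MvPolynomial (Fin n) F} (hQ : Q ≠ 0)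
    (hR : ∃ r : Fin n, (r : ℕ) + 3 ≤ n ∧ P r ≠ 0) {r : ℕ}
    (hr : ∀ (D : σ → Rt F σ → Rt F σ), (∀ x, IsDer (D x)) →
      (∀ x (c : F), D x (algebraMap F _ c) = 0) →
      (∀ x j, D x (gz F σ j) = if j = x then 1 else 0) →
      ∀ (α β : Fin (n / 5) × Fin (n / 5) → σ) (z : Fin (n / 5) × Fin (n / 5) → Rt F σ),
        (∀ i j, α i ≠ β j) → (∀ l, z l ∈ Set.range fun t : Fin n × Fin n => eqm v P Q t.1 t.2) →
        TensorRankLE (fun i j l => D (α i) (D (β j) (z l))) r) :
    ((n / 5 : ℕ) : ℝ) ^ Pool.Agent.H826R3.SM.omegaMM F ≤ 4 * r := by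
  obtain ⟨x, hx, hQx, hL⟩ := exists_good hn hQ hR
  obtain ⟨c, hcx⟩ := exists_point hK.pat x
  obtain ⟨D, hD, hc, hv⟩ := exists_dersV F σ
  obtain ⟨a, ha⟩ := exists_groups (n := n) (m := n / 5) (by omega)
  have hne : ∀ p q i j, p ≠ q → a p i ≠ a q j := fun p q i j h h' => h (ha p q i j h').1
  refine four (c := c) (x := x) (L := LR P x) (s := (MvPolynomial.eval (kx x) Q)⁻¹)
    (inv_ne_zero hQx)
    (fun i j j' k k' i' => D (v i j) (D (v j' k) (eqm v P Q i' k')))
    (ρ := fun _ => 1) (ρ' := fun _ => 1) (ρ'' := fun _ => 1)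
    (fun _ => one_ne_zero) (fun _ => one_ne_zero) (fun _ => one_ne_zero)
    (value_eqm hD hc hv hK hcx P hQx) (by omega : 1 ≤ n / 5) a ha ?_ ?_
  · intro i j
    have h01 := hne 0 1 i i (by decide)
    have h23 := hne 2 3 j j (by decide)
    rw [wt_eq _ _ h01 h23]
    refine mul_ne_zero (mul_ne_zero (sub_ne_zero.2 fun h => h01 (hx h))
      (sub_ne_zero.2 fun h => h23 (hx h))) (sub_ne_zero.2 ?_)
    exact hL ![a 0 i, a 1 i, a 2 j, a 3 j] (inj_four h01 (hne 0 2 i j (by decide))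
      (hne 0 3 i j (by decide)) (hne 1 2 i j (by decide)) (hne 1 3 i j (by decide)) h23)
  · intro p q hpq hp hq
    have key : ∀ i j k l : Fin n, v i j = v k l → (i = k ∧ j = l) ∨ (i = l ∧ j = k) := hK.pat
    refine hr D hD hc hv (fun i => v (a p i.1) (a q i.2)) (fun j => v (a q j.1) (a 4 j.2))
      (fun l => eqm v P Q (a p l.1) (a 4 l.2)) ?_ ?_
    · intro i j h
      rcases key _ _ _ _ h with ⟨h1, -⟩ | ⟨h1, -⟩
      · exact hne _ _ _ _ hpq h1
      · exact hne _ _ _ _ hp h1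
    · intro l
      exact ⟨(_, _), rfl⟩

variable (hn : 5 ≤ n) {θ : F} (hK : Kd v θ)
  {P : Fin n → MvPolynomial (Fin n) F} {Q : MvPolynomial (Fin n) F} (hQ : Q ≠ 0)
  (hR : ∃ r : Fin n, (r : ℕ) + 3 ≤ n ∧ P r ≠ 0)

include hn hK hQ hR

theorem lower_P {s : ℕ} (h : CompP F σ (Set.range fun t : Fin n × Fin n => eqm v P Q t.1 t.2) s) :
    ((n / 5 : ℕ) : ℝ) ^ Pool.Agent.H826R3.SM.omegaMM F ≤ 12 * s + 4 * ((n / 5 : ℕ) : ℝ) ^ 2 := by
  refine (lower_core hn hK hQ hR (r := 3 * s + (n / 5) ^ 2)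
    fun D hD hc hv α β z h1 h2 => out_P hD hc hv h1 h2 h).trans (le_of_eq ?_)
  push_cast
  ring

theorem lower_U {s : ℕ} (h : CompU F σ (Set.range fun t : Fin n × Fin n => eqm v P Q t.1 t.2) s) :
    ((n / 5 : ℕ) : ℝ) ^ Pool.Agent.H826R3.SM.omegaMM F ≤ 4 * s :=
  lower_core hn hK hQ hR (r := s) fun D hD hc hv α β z h1 h2 => out_U hD hc hv h1 h2 h

theorem lower_M {s : ℕ} (h : CompM F σ (Set.range fun t : Fin n × Fin n => eqm v P Q t.1 t.2) s) :
    ((n / 5 : ℕ) : ℝ) ^ Pool.Agent.H826R3.SM.omegaMM F ≤ 8 * s := by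
  refine (lower_core hn hK hQ hR (r := 2 * s)
    fun D hD hc hv α β z h1 h2 => out_M hD hc hv h1 h2 h).trans (le_of_eq ?_)
  push_cast
  ring

end lower

end Pool.Agent.Q225.Eqv
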