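import Pool.Agent.Q225.Eqv.Low
import Pool.Agent.Q225.Sim.Fin

set_option autoImplicit false
set_option linter.unusedSectionVars false

/-!
# Upper bounds for equivariant maps
-/

namespace Pool.Agent.Q225.Eqv

open Matrix Pool.Agent.Q225.Add Pool.Agent.Q225.Dich Pool.Agent.W956.KF Pool.Agent.H53R3
  Pool.Agent.Q225.Sim

section col

variable {F L : Type} [Field F] [Field L] [Algebra F L] {n : ℕ}

/-- the coefficients of `T ^ j * ∑ a k T ^ k` modulo the characteristic polynomial -/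
def col (n : ℕ) (κ a : ℕ → L) : ℕ → ℕ → L
  | 0 => a
  | j + 1 => fun k => (if k = 0 then 0 else col n κ a j (k - 1)) +
      -1 * (κ k * col n κ a j (n - 1))

theorem col_spec (X : Matrix (Fin n) (Fin n) L) (hn : 1 ≤ n) (a : ℕ → L) (j : ℕ) :
    ∑ k ∈ Finset.range n, col n (fun r => X.charpoly.coeff r) a j k • X ^ k =
      X ^ j * ∑ k ∈ Finset.range n, a k • X ^ k := by
  induction j with
  | zero => rw [pow_zero, Matrix.one_mul]; rfl
  | succ j ih =>
    rw [pow_succ', Matrix.mul_assoc, ← ih]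
    obtain ⟨m, rfl⟩ : ∃ m, n = m + 1 := ⟨n - 1, by omega⟩
    have h1 := Matrix.aeval_self_charpoly X
    rw [Polynomial.aeval_eq_sum_range, Matrix.charpoly_natDegree_eq_dim, Fintype.card_fin,
      Finset.sum_range_succ, coeff_top, one_smul] at h1
    have h2 := eq_neg_of_add_eq_zero_right h1
    set κ : ℕ → L := fun r => X.charpoly.coeff r with hκ
    set w := col (m + 1) κ a j with hw
    have e1 : ∀ k, col (m + 1) κ a (j + 1) k = (if k = 0 then 0 else w (k - 1)) +
        -1 * (κ k * w m) := fun k => rfl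
    simp only [e1, add_smul, Finset.sum_add_distrib]
    have e2 : ∑ k ∈ Finset.range (m + 1), (if k = 0 then 0 else w (k - 1)) • X ^ k =
        ∑ k ∈ Finset.range m, w k • X ^ (k + 1) := by
      rw [Finset.sum_range_succ']
      simp
    have e3 : ∑ k ∈ Finset.range (m + 1), (-1 * (κ k * w m)) • X ^ k =
        w m • X ^ (m + 1) := by
      rw [h2, smul_neg, Finset.smul_sum, ← Finset.sum_neg_distrib]
      refine Finset.sum_congr rfl fun k _ => ?_
      rw [smul_smul, ← neg_smul]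
      congr 1
      simp only [hκ]
      ring
    rw [e2, e3, Finset.mul_sum, Finset.sum_range_succ]
    congr 1
    · refine Finset.sum_congr rfl fun k _ => ?_
      rw [Matrix.mul_smul, ← pow_succ']
    · rw [Matrix.mul_smul, ← pow_succ']

theorem reach_col {T : Set L} (h0 : (0 : L) ∈ T) (hm : (-1 : L) ∈ T) {κ a : ℕ → L} (hn : 1 ≤ n)
    (hκ : ∀ k < n, κ k ∈ T) (ha : ∀ k < n, a k ∈ T) (j : ℕ) :
    ∃ T', ReachLe T (3 * n * j) T' ∧ ∀ j' ≤ j, ∀ k < n, col n κ a j' k ∈ T' := by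
  induction j with
  | zero =>
    refine ⟨T, ⟨0, by simp, .refl⟩, fun j' hj' k hk => ?_⟩
    obtain rfl : j' = 0 := by omega
    exact ha k hk
  | succ j ih =>
    obtain ⟨T1, r1, h1⟩ := ih
    have s1 := r1.subset
    obtain ⟨T2, r2, h2⟩ := reachLe_of_cost (Cost.range (T := T1) (ι := Fin n)
      (x := fun k => κ k * col n κ a j (n - 1)) (s := 1)
      fun k => Cost.mul (s1 (hκ k k.2)) (h1 j le_rfl (n - 1) (by omega)))
    have s2 := r2.subset
    obtain ⟨T3, r3, h3⟩ := reachLe_of_cost (Cost.range (T := T2) (ι := Fin n)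
      (x := fun k => -1 * (κ k * col n κ a j (n - 1))) (s := 1)
      fun k => Cost.mul (s2 (s1 hm)) (h2 ⟨k, rfl⟩))
    have s3 := r3.subset
    obtain ⟨T4, r4, h4⟩ := reachLe_of_cost (Cost.range (T := T3) (ι := Fin n)
      (x := fun k => (if (k : ℕ) = 0 then 0 else col n κ a j ((k : ℕ) - 1)) +
        -1 * (κ k * col n κ a j (n - 1))) (s := 1) (fun k => by
      refine Cost.add ?_ (h3 ⟨k, rfl⟩)
      have hk := k.2
      split_ifs
      · exact s3 (s2 (s1 h0))
      · exact s3 (s2 (h1 j le_rfl _ (by omega)))))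
    refine ⟨T4, (((r1.trans r2).trans r3).trans r4).mono ?_, fun j' hj' k hk => ?_⟩
    · rw [Fintype.card_fin]
      ring_nf
      exact le_rfl
    · rcases Nat.lt_or_ge j j' with h | h
      · obtain rfl : j' = j + 1 := by omega
        exact h4 ⟨⟨k, hk⟩, rfl⟩
      · exact r4.subset (s3 (s2 (h1 j' h k hk)))

end col

section up

variable {F σ : Type} [Field F] [Infinite F] {n : ℕ} {v : Fin n → Fin n → σ}

theorem sum_extend (X : Matrix (Fin n) (Fin n) (Rt F σ)) (a : Fin n → Rt F σ) :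
    ∑ k : Fin n, a k • X ^ (k : ℕ) =
      ∑ k ∈ Finset.range n, (if h : k < n then a ⟨k, h⟩ else 0) • X ^ k := by
  rw [Finset.sum_range]
  refine Finset.sum_congr rfl fun k _ => ?_
  rw [dif_pos k.2]

/-- the number of operations for equivariant maps, from the coefficients -/
noncomputable def eqCost (F : Type) [Field F] (n : ℕ) : ℕ := 2 * chCost F n + 3 * n ^ 2

theorem reach_eqv (hP : Pat v) {a : Fin n → Rt F σ} {s : ℕ}
    (h : CompFrom F (coefs F v) (Set.range a) s) :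
    CompT F σ (Set.range fun t : Fin n × Fin n =>
      (∑ k : Fin n, a k • gm F v ^ (k : ℕ)) t.1 t.2) (eqCost F n + s) := by
  rcases Nat.eq_zero_or_pos n with h0 | h0
  · subst h0
    refine ⟨Given F σ, ⟨0, Nat.zero_le _, .refl⟩, ?_⟩
    rintro _ ⟨t, rfl⟩
    exact t.1.elim0
  have h' : CompFrom F (coefs F v) (Set.range a ∪ coefs F v) s := by
    obtain ⟨T', h1, h2⟩ := h
    exact ⟨T', h1, Set.union_subset h2 (Set.subset_union_right.trans h1.subset)⟩
  obtain ⟨T0, r0, h1⟩ := compT_of_from hP h'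
  have hG : Given F σ ⊆ T0 := r0.subset
  have hT0 : ∀ c : F, algebraMap F (Rt F σ) c ∈ T0 := fun c => hG (Or.inl ⟨c, rfl⟩)
  have hX0 : ∀ i j, gm F v i j ∈ T0 := fun i j => hG (Or.inr ⟨_, rfl⟩)
  obtain ⟨T1, r1, h2, -⟩ := reach_krylov (gm F v) hT0 hX0 (Nat.clog 2 n)
  rw [kry_eq _ (Nat.le_pow_clog (by norm_num) n)] at h2
  have s1 := r1.subset
  have hdet := det_kr_ne_zero (F := F) hP
  obtain ⟨T2, r2, h3⟩ := reach_inverse (F := F) (fun c => s1 (hT0 c)) (kr (gm F v)) h2 hdet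
  have s2 := r2.subset
  have hm1 : (-1 : Rt F σ) ∈ T2 := s2 (s1 (by simpa using hT0 (-1)))
  have hz : (0 : Rt F σ) ∈ T2 := s2 (s1 (by simpa using hT0 0))
  obtain ⟨T3, r3, h4⟩ := reach_col (n := n) (T := T2) hz hm1 h0
    (κ := fun r => (gm F v).charpoly.coeff r)
    (a := fun k => if h : k < n then a ⟨k, h⟩ else 0)
    (fun k hk => s2 (s1 (h1 (Or.inr ⟨⟨k, hk⟩, rfl⟩))))
    (fun k hk => by
      rw [dif_pos hk]
      exact s2 (s1 (h1 (Or.inl ⟨_, rfl⟩)))) n
  have s3 := r3.subset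
  set W : Matrix (Fin n) (Fin n) (Rt F σ) := Matrix.of fun k j =>
    col n (fun r => (gm F v).charpoly.coeff r) (fun k => if h : k < n then a ⟨k, h⟩ else 0) j k
    with hW
  obtain ⟨T4, r4, h5⟩ := reachLe_mm (costMM_sizeMM F n) (fun c => s3 (s2 (s1 (hT0 c))))
    (fun i j => s3 (s2 (h2 i j))) (B := W) (fun i j => h4 j j.2.le i i.2)
  have s4 := r4.subset
  obtain ⟨T5, r5, h6⟩ := reachLe_mm (costMM_sizeMM F n) (fun c => s4 (s3 (s2 (s1 (hT0 c)))))
    h5 (fun i j => s4 (s3 (h3 i j)))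
  refine ⟨T5, (((((r0.trans r1).trans r2).trans r3).trans r4).trans r5).mono ?_, ?_⟩
  · rw [eqCost]
    have : chCost F n = 2 * Nat.clog 2 n * sizeMM F n + 4 * sizeMM F n +
      invCost F (Nat.clog 2 n) + n := rfl
    have h7 : 3 * n * n = 3 * n ^ 2 := by ring
    omega
  · have key : kr (gm F v) * W = (∑ k : Fin n, a k • gm F v ^ (k : ℕ)) * kr (gm F v) := by
      set G := ∑ k : Fin n, a k • gm F v ^ (k : ℕ) with hGdef
      have hGX : ∀ j : ℕ, Commute G (gm F v ^ j) := by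
        intro j
        refine Commute.sum_left _ _ _ fun k _ => ?_
        exact ((Commute.refl (gm F v)).pow_pow _ _).smul_left _
      ext i j
      have e1 : (kr (gm F v) * W) i j = ((∑ k ∈ Finset.range n,
          col n (fun r => (gm F v).charpoly.coeff r)
            (fun k => if h : k < n then a ⟨k, h⟩ else 0) j k • gm F v ^ k) *ᵥ 1) i := by
        rw [Matrix.mul_apply, Finset.sum_range, Matrix.sum_mulVec, Finset.sum_apply]
        refine Finset.sum_congr rfl fun k _ => ?_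
        rw [Matrix.smul_mulVec, Pi.smul_apply, smul_eq_mul, mul_comm]
        rfl
      have e2 : (G * kr (gm F v)) i j = ((G * gm F v ^ (j : ℕ)) *ᵥ 1) i := by
        rw [← Matrix.mulVec_mulVec]
        rfl
      rw [e1, e2, col_spec _ h0, ← sum_extend, ← hGdef, (hGX j).eq]
    have key2 : kr (gm F v) * W * (kr (gm F v))⁻¹ = ∑ k : Fin n, a k • gm F v ^ (k : ℕ) := by
      rw [key, Matrix.mul_assoc, Matrix.mul_nonsing_inv _ (isUnit_iff_ne_zero.2 hdet),
        Matrix.mul_one]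
    rintro _ ⟨t, rfl⟩
    beta_reduce
    rw [← key2]
    exact h6 _ _

theorem eqCost_upper {τ : ℝ} (hτ : Pool.Agent.H826R3.SM.omegaMM F < τ) :
    ∃ D : ℝ, 0 ≤ D ∧ ∀ n : ℕ, 1 ≤ n → (eqCost F n : ℝ) ≤ D * (n : ℝ) ^ τ := by
  obtain ⟨D, hD0, hD⟩ := chCost_upper hτ
  have h2 : 2 ≤ τ := (two_le_omegaMM F).trans hτ.le
  refine ⟨2 * D + 3, by positivity, fun n hn => ?_⟩
  have hn1 : (1 : ℝ) ≤ n := by exact_mod_cast hn
  have h3 : (n : ℝ) ^ 2 ≤ (n : ℝ) ^ τ := by
    calc (n : ℝ) ^ 2 = (n : ℝ) ^ (2 : ℝ) := by norm_cast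
      _ ≤ _ := Real.rpow_le_rpow_of_exponent_le hn1 h2
  have h4 := hD n hn
  rw [eqCost]
  push_cast
  nlinarith

end up

end Pool.Agent.Q225.Eqv
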