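import Pool.Agent.Q225.Eqv.Core

set_option autoImplicit false
set_option linter.unusedSectionVars false

/-!
# Second derivatives of equivariant maps at diagonal matrices
-/

namespace Pool.Agent.Q225.Eqv

open Matrix Pool.Agent.Q225.Add Pool.Agent.Q225.Dich Pool.Agent.W956.KF Pool.Agent.H53R3
  Polynomial Pool.Agent.Q225.Ver Pool.Agent.Q225.Sim

section bs

variable {L : Type} [Field L] {n : ℕ}

/-- the coefficient of `T ^ r` in the adjugate of `T - X` -/
noncomputable def bs (X : Matrix (Fin n) (Fin n) L) (r : ℕ) : Matrix (Fin n) (Fin n) L :=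
  ∑ k ∈ Finset.range (n - r), X.charpoly.coeff (r + k + 1) • X ^ k

theorem coeff_top (X : Matrix (Fin n) (Fin n) L) : X.charpoly.coeff n = 1 := by
  have := Matrix.charpoly_monic X
  rw [Polynomial.Monic, Polynomial.leadingCoeff, Matrix.charpoly_natDegree_eq_dim,
    Fintype.card_fin] at this
  exact this

theorem bs_rec (X : Matrix (Fin n) (Fin n) L) {r : ℕ} (hr : r < n) :
    bs X r = X * bs X (r + 1) + X.charpoly.coeff (r + 1) • 1 := by
  have h1 : n - r = (n - (r + 1)) + 1 := by omega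
  rw [bs, bs, h1, Finset.sum_range_succ', Finset.mul_sum, pow_zero, add_zero]
  congr 1
  refine Finset.sum_congr rfl fun k _ => ?_
  rw [Matrix.mul_smul, ← pow_succ', show r + (k + 1) + 1 = r + 1 + k + 1 by ring]

theorem bs_last (X : Matrix (Fin n) (Fin n) L) {r : ℕ} (hr : r + 1 = n) : bs X r = 1 := by
  have h1 : n - r = 1 := by omega
  rw [bs, h1, Finset.sum_range_one, add_zero, hr, coeff_top, one_smul, pow_zero]

theorem bs_top (X : Matrix (Fin n) (Fin n) L) {r : ℕ} (hr : n ≤ r) : bs X r = 0 := by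
  have h1 : n - r = 0 := by omega
  rw [bs, h1, Finset.sum_range_zero]

theorem bs_zero (X : Matrix (Fin n) (Fin n) L) : X * bs X 0 = -(X.charpoly.coeff 0 • 1) := by
  have h1 := Matrix.aeval_self_charpoly X
  rw [Polynomial.aeval_eq_sum_range, Matrix.charpoly_natDegree_eq_dim, Fintype.card_fin,
    Finset.sum_range_succ', pow_zero] at h1
  rw [bs, Finset.mul_sum, Nat.sub_zero, eq_neg_iff_add_eq_zero, ← h1]
  congr 1
  refine Finset.sum_congr rfl fun k _ => ?_
  rw [Matrix.mul_smul, ← pow_succ', zero_add]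

/-- the adjugate of `τ - X` -/
theorem mul_bs_sum (X : Matrix (Fin n) (Fin n) L) (τ : L) :
    (algebraMap L (Matrix (Fin n) (Fin n) L) τ - X) * ∑ r ∈ Finset.range n, τ ^ r • bs X r =
      X.charpoly.eval τ • 1 := by
  have key : ∀ m ≤ n, (algebraMap L (Matrix (Fin n) (Fin n) L) τ - X) *
      ∑ r ∈ Finset.range m, τ ^ r • bs X r =
      (∑ r ∈ Finset.range m, X.charpoly.coeff r * τ ^ r) • 1 +
        (if m = 0 then 0 else τ ^ m • bs X (m - 1)) := by
    intro m
    induction m with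
    | zero => simp
    | succ m ih =>
      intro hm
      rw [Finset.sum_range_succ, mul_add, ih (by omega), Finset.sum_range_succ, add_smul,
        if_neg (Nat.succ_ne_zero m), Nat.add_sub_cancel]
      have h1 : (algebraMap L (Matrix (Fin n) (Fin n) L) τ - X) * τ ^ m • bs X m =
          τ ^ (m + 1) • bs X m - τ ^ m • (X * bs X m) := by
        rw [sub_mul, Matrix.mul_smul, Matrix.mul_smul, Algebra.algebraMap_eq_smul_one,
          Matrix.smul_mul, Matrix.one_mul, smul_smul, pow_succ]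
      rw [h1]
      by_cases h0 : m = 0
      · subst h0
        rw [bs_zero, if_pos rfl]
        simp only [Finset.range_zero, Finset.sum_empty, zero_smul, zero_add, pow_zero, mul_one,
          one_smul, pow_one, sub_neg_eq_add]
        abel
      · rw [if_neg h0]
        have h2 := bs_rec X (r := m - 1) (by omega)
        rw [Nat.sub_add_cancel (Nat.one_le_iff_ne_zero.2 h0)] at h2
        rw [h2, smul_add, smul_smul, mul_comm (τ ^ m)]
        abel
  have h := key n le_rfl
  rw [h, Polynomial.eval_eq_sum_range, Matrix.charpoly_natDegree_eq_dim, Fintype.card_fin,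
    Finset.sum_range_succ, coeff_top, one_mul, add_smul]
  congr 1
  split_ifs with h0
  · subst h0
    exact Matrix.ext fun i => i.elim0
  · rw [bs_last X (Nat.sub_add_cancel (Nat.one_le_iff_ne_zero.2 h0))]

theorem bs_sum (X : Matrix (Fin n) (Fin n) L) (τ : L)
    (h : IsUnit (algebraMap L (Matrix (Fin n) (Fin n) L) τ - X).det) :
    ∑ r ∈ Finset.range n, τ ^ r • bs X r =
      (algebraMap L (Matrix (Fin n) (Fin n) L) τ - X).det •
        (algebraMap L (Matrix (Fin n) (Fin n) L) τ - X)⁻¹ := by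
  have h1 := congrArg (fun M => (algebraMap L (Matrix (Fin n) (Fin n) L) τ - X)⁻¹ * M)
    (mul_bs_sum X τ)
  beta_reduce at h1
  rw [← Matrix.mul_assoc, Matrix.nonsing_inv_mul _ h, Matrix.one_mul, Matrix.mul_smul,
    Matrix.mul_one, Matrix.eval_charpoly] at h1
  exact h1

end bs

section jo

variable {F σ : Type} [Field F] [DecidableEq σ] {c : σ → F}

/-- `z` vanishes at `c`, its first derivatives are defined there and the second derivative has
the value `e` -/
structure Jo (c : σ → F) (D : σ → Rt F σ → Rt F σ) (a b : σ) (z : Rt F σ) (e : F) : Prop where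
  z0 : Vl c z 0
  za : ∃ w, Vl c (D a z) w
  zb : ∃ w, Vl c (D b z) w
  zab : Vl c (D a (D b z)) e

variable {D : σ → Rt F σ → Rt F σ} (hD : ∀ x, IsDer (D x))
  (hc : ∀ x (c : F), D x (algebraMap F _ c) = 0) {a b g : σ}

include hD

theorem Jo.congr {z : Rt F σ} {e e' : F} (h : Jo c D a b z e) (he : e = e') : Jo c D a b z e' := by
  subst he
  exact h

theorem Jo.zero : Jo c D a b 0 0 where
  z0 := vl_zero c
  za := ⟨0, by rw [(hD a).zero]; exact vl_zero c⟩
  zb := ⟨0, by rw [(hD b).zero]; exact vl_zero c⟩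
  zab := by rw [(hD b).zero, (hD a).zero]; exact vl_zero c

theorem Jo.add {z z' : Rt F σ} {e e' : F} (h : Jo c D a b z e) (h' : Jo c D a b z' e') :
    Jo c D a b (z + z') (e + e') where
  z0 := by simpa using h.z0.add h'.z0
  za := by
    obtain ⟨w, hw⟩ := h.za
    obtain ⟨w', hw'⟩ := h'.za
    exact ⟨w + w', by rw [(hD a).add]; exact hw.add hw'⟩
  zb := by
    obtain ⟨w, hw⟩ := h.zb
    obtain ⟨w', hw'⟩ := h'.zb
    exact ⟨w + w', by rw [(hD b).add]; exact hw.add hw'⟩
  zab := by rw [(hD b).add, (hD a).add]; exact h.zab.add h'.zab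

theorem Jo.mul {f z : Rt F σ} {v d e : F} (h : Jt c D a b g f v d) (h' : Jo c D a b z e) :
    Jo c D a b (f * z) (v * e) where
  z0 := by simpa using h.v0.mul h'.z0
  za := by
    obtain ⟨w, hw⟩ := h'.za
    exact ⟨v * w, by rw [(hD a).mul]; simpa using (h.da.mul h'.z0).add (h.v0.mul hw)⟩
  zb := by
    obtain ⟨w, hw⟩ := h'.zb
    exact ⟨v * w, by rw [(hD b).mul]; simpa using (h.db.mul h'.z0).add (h.v0.mul hw)⟩
  zab := by
    obtain ⟨w, hw⟩ := h'.za
    obtain ⟨w', hw'⟩ := h'.zb
    rw [(hD b).mul, (hD a).add, (hD a).mul, (hD a).mul]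
    simpa using ((h.dab.mul h'.z0).add (h.db.mul hw)).add ((h.da.mul hw').add (h.v0.mul h'.zab))

theorem jo_sum {ι : Type} (s : Finset ι) {z : ι → Rt F σ} {e : ι → F}
    (h : ∀ i ∈ s, Jo c D a b (z i) (e i)) : Jo c D a b (∑ i ∈ s, z i) (∑ i ∈ s, e i) := by
  classical
  induction s using Finset.induction_on with
  | empty => simpa using Jo.zero hD
  | insert i s hi ih =>
    rw [Finset.sum_insert hi, Finset.sum_insert hi]
    exact (h i (Finset.mem_insert_self _ _)).add hD (ih fun j hj => h j (Finset.mem_insert_of_mem hj))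

include hc in
theorem Jo.smul {z : Rt F σ} {e : F} (x : F) (h : Jo c D a b z e) : Jo c D a b (x • z) (x * e) := by
  rw [Algebra.smul_def]
  exact Jo.mul hD (jt_const hD hc (c := c) (a := a) (b := b) (g := a) x) h

end jo

section value

variable {F σ : Type} [Field F] [DecidableEq σ] {n : ℕ} {v : Fin n → Fin n → σ}
  {D : σ → Rt F σ → Rt F σ} (hD : ∀ x, IsDer (D x))
  (hc : ∀ x (c : F), D x (algebraMap F _ c) = 0)
  (hv : ∀ x j, D x (gz F σ j) = if j = x then 1 else 0)

theorem entry_three (y : Fin n → F) (a b : σ) (i' k' : Fin n) :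
    (Matrix.diagonal y * pos F v a * Matrix.diagonal y * pos F v b * Matrix.diagonal y) i' k' =
      ∑ m, (if v i' m = a then y i' else 0) * (if v m k' = b then y m else 0) * y k' := by
  rw [Matrix.mul_diagonal, Matrix.mul_assoc _ (Matrix.diagonal y), Matrix.mul_apply,
    Finset.sum_mul]
  refine Finset.sum_congr rfl fun m _ => ?_
  simp only [Matrix.diagonal_mul, pos, Matrix.of_apply, mul_ite, mul_one, mul_zero]

theorem mv_pos (v : Fin n → Fin n → σ) {c : σ → F} (w : σ) : MV c (pos (Rt F σ) v w) (pos F v w) := mv_of fun i j => by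
  simp only [pos, Matrix.of_apply]
  split_ifs
  · exact vl_one c
  · exact vl_zero c

include hD in
theorem der_apply (w : σ) (M : Matrix (Fin n) (Fin n) (Rt F σ)) (i k : Fin n) :
    D w (M i k) = dMat (D w) M i k := rfl

include hD hc hv

theorem der_inv_two (τ : F) (hu : IsUnit (cm v τ).det) (a b : σ) :
    dMat (D a) (dMat (D b) (cm v τ)⁻¹) =
      (cm v τ)⁻¹ * pos (Rt F σ) v a * (cm v τ)⁻¹ * pos (Rt F σ) v b * (cm v τ)⁻¹ +
      (cm v τ)⁻¹ * pos (Rt F σ) v b * (cm v τ)⁻¹ * pos (Rt F σ) v a * (cm v τ)⁻¹ := by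
  rw [dMat_cm_inv v hD hc hv τ hu, (hD a).dMat_mul, (hD a).dMat_mul, dMat_pos v hD hc hv,
    mul_zero, add_zero, dMat_cm_inv v hD hc hv τ hu]
  simp only [Matrix.mul_assoc]

section triple

variable {i j j' k k' i' : Fin n} (hs : Sep i j j' k k' i') (hP : Pat v) {c : σ → F}
  {x : Fin n → F} (hcx : ∀ i j, c (v i j) = if i = j then x i else 0)

include hs hP hcx

theorem jo_inv {τ : F} (hτ : ∀ l, τ ≠ x l) :
    Jo c D (v i j) (v j' k) ((cm v τ)⁻¹ i' k')
      (if j = j' ∧ k = k' ∧ i = i' then (τ - x i)⁻¹ * (τ - x j)⁻¹ * (τ - x k)⁻¹ else 0) := by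
  obtain ⟨⟨h1, h2, h3, h4⟩, ⟨h5, h6, h7, h8⟩, h9, h10, h11, h12⟩ := hs
  have hA := mv_cm hcx τ
  have h0 : (Matrix.diagonal fun l => τ - x l).det ≠ 0 := by
    rw [Matrix.det_diagonal]
    exact Finset.prod_ne_zero_iff.2 fun l _ => sub_ne_zero.2 (hτ l)
  have hu : IsUnit (cm v τ).det := isUnit_iff_ne_zero.2 (vl_ne_zero hA.det h0)
  have hi : MV c (cm v τ)⁻¹ (Matrix.diagonal fun l => (τ - x l)⁻¹) := by
    rw [← diag_inv x hτ]
    exact hA.inv h0
  have hd : ∀ w, MV c (dMat (D w) (cm v τ)⁻¹) _ := fun w => by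
    rw [dMat_cm_inv v hD hc hv τ hu]
    exact (hi.mul (mv_pos v w)).mul hi
  refine ⟨?_, ⟨_, (hd (v i j)).apply i' k'⟩, ⟨_, (hd (v j' k)).apply i' k'⟩, ?_⟩
  · have := hi.apply i' k'
    rwa [Matrix.diagonal_apply_ne _ h8] at this
  · have h13 : D (v i j) (D (v j' k) ((cm v τ)⁻¹ i' k')) =
        dMat (D (v i j)) (dMat (D (v j' k)) (cm v τ)⁻¹) i' k' := rfl
    rw [h13, der_inv_two hD hc hv τ hu, Matrix.add_apply]
    have h14 := (((((hi.mul (mv_pos v (v i j))).mul hi).mul (mv_pos v (v j' k))).mul hi).apply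
      i' k').add (((((hi.mul (mv_pos v (v j' k))).mul hi).mul (mv_pos v (v i j))).mul hi).apply i' k')
    convert h14 using 1
    rw [entry_three, entry_three]
    have z2 : ∑ m, (if v i' m = v j' k then (τ - x i')⁻¹ else 0) *
        (if v m k' = v i j then (τ - x m)⁻¹ else 0) * (τ - x k')⁻¹ = 0 := by
      refine Finset.sum_eq_zero fun m _ => ?_
      rw [if_neg, zero_mul, zero_mul]
      intro h
      rcases hP _ _ _ _ h with ⟨h', -⟩ | ⟨h', -⟩
      · exact h6 h'
      · exact h7 h'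
    rw [z2, add_zero]
    by_cases hm : j = j' ∧ k = k' ∧ i = i'
    · obtain ⟨rfl, rfl, rfl⟩ := hm
      rw [if_pos ⟨rfl, rfl, rfl⟩, Finset.sum_eq_single j]
      · simp
      · intro m _ hm
        rw [if_neg, zero_mul, zero_mul]
        intro h
        rcases hP _ _ _ _ h with ⟨-, h'⟩ | ⟨h', -⟩
        · exact hm h'
        · exact h1 h'
      · simp
    · rw [if_neg hm]
      symm
      refine Finset.sum_eq_zero fun m _ => ?_
      by_cases a : v i' m = v i j
      · by_cases b : v m k' = v j' k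
        · exfalso
          apply hm
          rcases hP _ _ _ _ a with ⟨rfl, rfl⟩ | ⟨rfl, rfl⟩
          · rcases hP _ _ _ _ b with ⟨rfl, rfl⟩ | ⟨rfl, rfl⟩
            · exact ⟨rfl, rfl, rfl⟩
            · exact absurd rfl h12
          · exact absurd rfl h5
        · rw [if_neg b, mul_zero, zero_mul]
      · rw [if_neg a, zero_mul, zero_mul]

/-- the adjugate of `τ - X` -/
theorem jo_adj {θ : F} (hK : Kd v θ) {τ : F} (hτ : ∀ l, τ ≠ x l) :
    Jo c D (v i j) (v j' k) (((cm v τ).det • (cm v τ)⁻¹ : Matrix _ _ _) i' k')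
      (if j = j' ∧ k = k' ∧ i = i' then (qp x {i, j, k}).eval τ else 0) := by
  have h := jo_inv hD hc hv hs hP hcx hτ
  obtain ⟨⟨h1, h2, h3, h4⟩, ⟨h5, h6, h7, h8⟩, h9, h10, h11, h12⟩ := hs
  have hJ := jt_cm hD hc hv h1 h2 h3 h4 h5 h6 h7 h8 h9 h10 h11 h12 hK hcx hτ
  rw [Matrix.smul_apply, smul_eq_mul]
  refine (Jo.mul hD hJ h).congr hD ?_
  by_cases hm : j = j' ∧ k = k' ∧ i = i'
  · rw [if_pos hm, if_pos hm]
    have e1 := qp_mul x (s := ∅) (i := k) (by simp)
    have e2 := qp_mul x (s := {k}) (i := j) (by simpa using h9)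
    have e3 := qp_mul x (s := {j, k}) (i := i) (by
      simp only [Finset.mem_insert, Finset.mem_singleton, not_or]
      exact ⟨h1, h3⟩)
    have e1' := congrArg (Polynomial.eval τ) e1
    have e2' := congrArg (Polynomial.eval τ) e2
    have e3' := congrArg (Polynomial.eval τ) e3
    simp only [Polynomial.eval_mul, Polynomial.eval_sub, Polynomial.eval_X, Polynomial.eval_C]
      at e1' e2' e3'
    have a1 := sub_ne_zero.2 (hτ i)
    have a2 := sub_ne_zero.2 (hτ j)
    have a3 := sub_ne_zero.2 (hτ k)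
    have e4 : insert k (∅ : Finset (Fin n)) = {k} := rfl
    rw [e4] at e1'
    have e5 : insert i ({j, k} : Finset (Fin n)) = {i, j, k} := rfl
    rw [e5] at e3'
    have e6 : insert j ({k} : Finset (Fin n)) = {j, k} := rfl
    rw [e6] at e2'
    rw [← e1', ← e2', ← e3']
    field_simp
  · rw [if_neg hm, if_neg hm, mul_zero]

theorem jo_bs [Infinite F] {θ : F} (hK : Kd v θ) {r : ℕ} (hr : r < n) :
    Jo c D (v i j) (v j' k) (bs (gm F v) r i' k')
      (if j = j' ∧ k = k' ∧ i = i' then (qp x {i, j, k}).coeff r else 0) := by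
  classical
  obtain ⟨t, ht, ht'⟩ : ∃ t : Fin (n + 1) → F, Function.Injective t ∧ ∀ s l, t s ≠ x l := by
    have hinf : (Set.univ \ Set.range x).Infinite :=
      Set.infinite_univ.sdiff (Set.finite_range x)
    obtain ⟨T, hT, hT'⟩ := hinf.exists_subset_card_eq (n + 1)
    let e := (T.equivFinOfCardEq hT').symm
    refine ⟨fun s => (e s : F), fun a b h => e.injective (Subtype.ext h), fun s l h => ?_⟩
    exact (hT (e s).2).2 ⟨l, h.symm⟩
  obtain ⟨lam, hlam⟩ := exists_interp t ht ⟨r, by omega⟩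
  set P : (Rt F σ)[X] := ∑ r ∈ Finset.range n, C (bs (gm F v) r i' k') * X ^ r with hPdef
  have hdeg : P.natDegree ≤ n := by
    refine Polynomial.natDegree_sum_le_of_forall_le _ _ fun r hr => ?_
    exact (Polynomial.natDegree_C_mul_X_pow_le _ _).trans (Finset.mem_range.1 hr).le
  have hcoef : P.coeff r = bs (gm F v) r i' k' := by
    rw [hPdef, Polynomial.finsetSum_coeff, Finset.sum_eq_single r]
    · rw [Polynomial.coeff_C_mul_X_pow, if_pos rfl]
    · intro s _ hs
      rw [Polynomial.coeff_C_mul_X_pow, if_neg (Ne.symm hs)]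
    · intro h
      exact absurd (Finset.mem_range.2 hr) h
  have e1 : bs (gm F v) r i' k' = ∑ s, lam s • ((cm v (t s)).det • (cm v (t s))⁻¹ :
      Matrix _ _ _) i' k' := by
    rw [← hcoef]
    refine (hlam (Rt F σ) P hdeg).trans (Finset.sum_congr rfl fun s _ => ?_)
    have hA := mv_cm (v := v) hcx (t s)
    have h0 : (Matrix.diagonal fun l => t s - x l).det ≠ 0 := by
      rw [Matrix.det_diagonal]
      exact Finset.prod_ne_zero_iff.2 fun l _ => sub_ne_zero.2 (ht' s l)
    have hu : IsUnit (cm v (t s)).det := isUnit_iff_ne_zero.2 (vl_ne_zero hA.det h0)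
    have h1 : algebraMap (Rt F σ) (Matrix (Fin n) (Fin n) (Rt F σ))
        (algebraMap F (Rt F σ) (t s)) - gm F v = cm v (t s) := rfl
    have h2 := bs_sum (gm F v) (algebraMap F (Rt F σ) (t s)) (by rw [h1]; exact hu)
    rw [h1] at h2
    rw [← h2, Matrix.sum_apply, hPdef, Polynomial.eval_finsetSum]
    congr 1
    refine Finset.sum_congr rfl fun r _ => ?_
    rw [Polynomial.eval_C_mul, Polynomial.eval_pow, Polynomial.eval_X, Matrix.smul_apply,
      smul_eq_mul, mul_comm]
  have e3 : (qp x {i, j, k}).coeff r = ∑ s, lam s * (qp x {i, j, k}).eval (t s) :=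
    hlam F (qp x {i, j, k}) (qp_natDegree _ _)
  rw [e1, e3]
  have := jo_sum (c := c) hD (a := v i j) (b := v j' k) Finset.univ
    (z := fun s => lam s • ((cm v (t s)).det • (cm v (t s))⁻¹ : Matrix _ _ _) i' k')
    fun s _ => (jo_adj hD hc hv hs hP hcx hK (ht' s)).smul hD hc (lam s)
  refine this.congr hD ?_
  by_cases hm : j = j' ∧ k = k' ∧ i = i'
  · simp only [if_pos hm]
  · simp only [if_neg hm, mul_zero, Finset.sum_const_zero]

end triple

end value

end Pool.Agent.Q225.Eqv
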